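import Mathlib

namespace Pool.Agent.Results.MP_bd8ab5_nt.Decide

/-- `P(a,b,c,d) = {x ∈ ℤ : a x mod b ≤ c x - d}` -/
def P (a b c d : ℕ) : Set ℤ := {x | (a * x) % b ≤ c * x - d}

/-- the set of nonnegative integers outside the gap list `G` is `P(a,b,c,d) ∪ {0}` for some
nonnegative `a, b, c, d` with `b ≠ 0 ≠ c` -/
def CPM (G : List ℕ) : Prop :=
  ∃ a b c d : ℕ, b ≠ 0 ∧ c ≠ 0 ∧ {x : ℤ | 0 ≤ x ∧ x.toNat ∉ G} = P a b c d ∪ {0}

/-- natural number form -/
def In (a b c d x : ℕ) : Prop := a * x % b + d ≤ c * x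

lemma In_add {a b c d x y : ℕ} (hx : In a b c d x) (hy : In a b c d y) : In a b c d (x + y) := by
  unfold In at *
  have := Nat.add_mod (a * x) (a * y) b
  have := Nat.mod_le (a * x % b + a * y % b) b
  rw [mul_add, mul_add]
  omega

lemma cpm_iff (G : List ℕ) : CPM G ↔
    ∃ a b c d : ℕ, b ≠ 0 ∧ c ≠ 0 ∧ ∀ x, (x ∉ G ↔ In a b c d x ∨ x = 0) := by
  refine exists₄_congr fun a b c d => and_congr_right fun hb => and_congr_right fun hc => ?_
  have e : ∀ x : ℕ, (x : ℤ) ∈ P a b c d ↔ In a b c d x := fun x => by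
    simp only [P, In, Set.mem_ofPred_eq]
    zify
    omega
  constructor
  · intro h x
    have := Set.ext_iff.1 h x
    simpa [e, or_comm] using this
  · intro h
    ext x
    rcases le_or_gt 0 x with h0 | h0
    · lift x to ℕ using h0
      simpa [e, or_comm] using h x
    · have h1 := Int.emod_nonneg (a * x) (b := b) (by exact_mod_cast hb)
      have h2 : (c : ℤ) * x < 0 := mul_neg_of_pos_of_neg (by positivity) h0
      simp only [P, Set.mem_ofPred_eq, Set.mem_union, Set.mem_singleton_iff]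
      omega

lemma fc (t : ℚ) (j : ℤ) : ((j : ℚ) ≤ t ↔ 2 * j ≤ ⌊t⌋ + ⌈t⌉) ∧ (t ≤ j ↔ ⌊t⌋ + ⌈t⌉ ≤ 2 * j) := by
  have := Int.floor_le_ceil t
  have := Int.ceil_le_floor_add_one t
  rw [← Int.le_floor, ← Int.ceil_le]
  omega

lemma round (N M b : ℕ) (e : ℤ) (hb : 0 < b) (M0 : 0 < M) (hM : ∀ q, 0 < q → q ≤ N → q ∣ M) :
    ∃ E : ℤ, E ≤ 4 * M * (N + 1) ∧ (∀ j : ℤ, j ≤ 0 → j * b < e * M → 4 * j + 2 ≤ E) ∧
      ∀ p q : ℤ, |p| ≤ N → |q| ≤ N → (b * p ≤ e * q ↔ 4 * M * p ≤ E * q) := by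
  set e' := min e (b * (N + 1)) with he
  have b0 : (0 : ℚ) < b := by exact_mod_cast hb
  have b0' : (0 : ℤ) < b := by exact_mod_cast hb
  have M0' : (0 : ℤ) < M := by exact_mod_cast M0
  set t : ℚ := e' * M / b with ht
  have h1 : ∀ j : ℤ, (j * b ≤ e' * M ↔ 2 * j ≤ ⌊t⌋ + ⌈t⌉) ∧ (e' * M ≤ j * b ↔ ⌊t⌋ + ⌈t⌉ ≤ 2 * j) := by
    intro j
    rw [← (fc t j).1, ← (fc t j).2, ht, le_div_iff₀ b0, div_le_iff₀ b0]
    constructor <;> exact_mod_cast Iff.rfl
  refine ⟨2 * (⌊t⌋ + ⌈t⌉), ?_, fun j j0 hj => ?_, ?_⟩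
  · have := (h1 (M * (N + 1))).2.1 (by nlinarith [min_le_right e (b * (N + 1))])
    linarith
  · have : ¬ e' * M ≤ j * b := by
      rcases min_choice e (b * (N + 1)) with h | h <;> rw [he, h]
      · omega
      · have : 0 < b * ((N : ℤ) + 1) * M := by positivity
        nlinarith
    rw [(h1 j).2] at this
    omega
  have pos : ∀ p q : ℤ, |p| ≤ N → 0 < q → q ≤ N →
      (b * p ≤ e * q ↔ 4 * M * p ≤ 2 * (⌊t⌋ + ⌈t⌉) * q) ∧
      (e * q ≤ b * p ↔ 2 * (⌊t⌋ + ⌈t⌉) * q ≤ 4 * M * p) := by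
    intro p q hp q0 hq
    lift q to ℕ using q0.le
    obtain ⟨w, hw⟩ := hM q (by exact_mod_cast q0) (by exact_mod_cast hq)
    have hw' : (M : ℤ) = q * w := by exact_mod_cast hw
    have w0 : (0 : ℤ) < w := by
      rw [hw'] at M0'
      exact (pos_iff_pos_of_mul_pos M0').1 q0
    have hp' := (abs_le.1 hp).2
    have c1 : (b * p ≤ e * q ↔ b * p ≤ e' * q) ∧ (e * q ≤ b * p ↔ e' * q ≤ b * p) := by
      rcases le_total e (b * (N + 1)) with h | h
      · rw [he, min_eq_left h]; exact ⟨Iff.rfl, Iff.rfl⟩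
      · rw [he, min_eq_right h]
        have a1 : b * p < b * ((N : ℤ) + 1) * q := by
          rw [mul_assoc]
          exact mul_lt_mul_of_pos_left (by nlinarith [Int.natCast_nonneg N]) b0'
        have a2 := mul_le_mul_of_nonneg_right h q0.le
        omega
    rw [c1.1, c1.2, ← mul_le_mul_iff_left₀ w0, ← mul_le_mul_iff_left₀ w0 (b := e' * q),
      show b * p * w = p * w * b by ring, show e' * q * w = e' * M by rw [hw']; ring,
      (h1 _).1, (h1 _).2, show 4 * M * p = 2 * (2 * (p * w)) * q by rw [hw']; ring,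
      mul_le_mul_iff_left₀ q0, mul_le_mul_iff_left₀ q0]
    omega
  intro p q hp hq
  rcases lt_trichotomy q 0 with h | rfl | h
  · have := (pos (-p) (-q) (by rwa [abs_neg]) (by omega) (by have := abs_le.1 hq; omega)).2
    simp only [mul_neg, neg_le_neg_iff] at this
    exact this
  · simp only [mul_zero]
    rw [mul_nonpos_iff_pos_imp_nonpos, mul_nonpos_iff_pos_imp_nonpos]
    omega
  · exact (pos p q hp h (abs_le.1 hq).2).1

lemma small (N a b c d : ℕ) (hb : b ≠ 0) (hc : c ≠ 0) (N0 : 0 < N) (hN : In a b c d N) :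
    ∃ a' < 4 * (N + 3) ^ (N + 3), ∃ b' < 4 * (N + 3) ^ (N + 3), ∃ c' < 4 * (N + 3) ^ (N + 3),
      ∃ d' < 4 * (N + 3) ^ (N + 3), b' ≠ 0 ∧ c' ≠ 0 ∧
      ∀ x, 0 < x → x ≤ N → (In a b c d x ↔ In a' b' c' d' x) := by
  have b0 := Nat.pos_of_ne_zero hb
  wlog hab : a < b generalizing a
  · have e : ∀ x, In a b c d x ↔ In (a % b) b c d x := fun x => by simp [In]
    simp only [e] at hN ⊢
    exact this _ hN (Nat.mod_lt _ b0)
  classical
  set M := N.factorial with hM
  have M0 : 0 < M := N.factorial_pos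
  obtain ⟨E, E1, E2, E3⟩ := round N M b (c - a) b0 M0 (fun q => Nat.dvd_factorial)
  set k := a * M / b with hk
  have kM : k < M := Nat.div_lt_of_lt_mul (Nat.mul_lt_mul_of_pos_right hab M0)
  have k2 : a * M < b * (k + 1) := Nat.lt_mul_div_succ _ b0
  have yN : ∀ x ≤ N, a * x / b ≤ N := fun x hx => Nat.div_le_of_le_mul (by nlinarith)
  have i1 : ∀ x, In a b c d x ↔ (d : ℤ) ≤ (c - a) * x + b * (a * x / b : ℕ) := fun x => by
    have := Nat.div_add_mod (a * x) b
    unfold In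
    generalize a * x / b = y at *
    generalize a * x % b = z at *
    zify at this ⊢
    constructor <;> intro h <;> linarith
  have hy : ∀ x, 0 < x → x ≤ N → (4 * k + 3) * x / (4 * M) = a * x / b := by
    intro x x0 hx
    obtain ⟨w, hw⟩ := Nat.dvd_factorial x0 hx
    rw [← hM] at hw
    have y1 := Nat.mul_div_le (a * x) b
    have y2 := Nat.lt_mul_div_succ (a * x) b0
    have w0 : 0 < w := Nat.pos_of_mul_pos_left (hw ▸ M0)
    generalize a * x / b = y at *
    have z1 : y * w ≤ k := (Nat.le_div_iff_mul_le b0).2 (by rw [hw]; nlinarith)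
    have z2 : k < (y + 1) * w := (Nat.div_lt_iff_lt_mul b0).2 (by rw [hw]; nlinarith)
    rw [hw]
    exact Nat.div_eq_of_lt_le (by nlinarith) (by nlinarith)
  obtain ⟨x₀, h0, hmin⟩ := ((Finset.Icc 1 N).filter (In a b c d)).exists_min_image
    (fun x : ℕ => ((c : ℤ) - a) * x + b * (a * x / b : ℕ)) ⟨N, by simp [hN]; omega⟩
  simp only [Finset.mem_filter, Finset.mem_Icc, and_imp] at h0 hmin
  have c1 := E2 (-(k + 1)) (by linarith [Int.natCast_nonneg k]) (by
    have : (0 : ℤ) < c * M := by have := Nat.pos_of_ne_zero hc; positivity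
    zify at k2
    linarith)
  have d0 : 0 ≤ E * x₀ + 4 * M * (a * x₀ / b : ℕ) := by
    have := (E3 (-(a * x₀ / b : ℕ)) x₀ (by rw [abs_neg, Nat.abs_cast]; exact_mod_cast yN x₀ h0.1.2)
      (by simpa using h0.1.2)).1
      (by have := (i1 x₀).1 h0.2; linarith)
    linarith
  obtain ⟨c', hc'⟩ := Int.eq_ofNat_of_zero_le (by omega : (0 : ℤ) ≤ 4 * k + 3 + E)
  obtain ⟨d', hd'⟩ := Int.eq_ofNat_of_zero_le d0
  have i2 : ∀ x, 0 < x → x ≤ N →
      (In (4 * k + 3) (4 * M) c' d' x ↔ (d' : ℤ) ≤ E * x + 4 * M * (a * x / b : ℕ)) := fun x x0 hx => by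
    have := Nat.div_add_mod ((4 * k + 3) * x) (4 * M)
    rw [hy x x0 hx] at this
    unfold In
    generalize a * x / b = y at *
    generalize (4 * k + 3) * x % (4 * M) = z at *
    zify at this ⊢
    rw [← hc']
    constructor <;> intro h <;> linarith
  have B1 : M ≤ (N + 3) ^ N := (Nat.factorial_le_pow N).trans (Nat.pow_le_pow_left (by omega) _)
  have B2 : M * (N + 2) * (N + 1) < (N + 3) ^ (N + 3) := by
    calc _ ≤ (N + 3) ^ N * (N + 3) * (N + 3) := by gcongr <;> omega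
      _ < _ := by rw [← pow_succ, ← pow_succ]; exact Nat.pow_lt_pow_right (by omega) (by omega)
  have c2 : c' ≤ 4 * M * (N + 2) := by zify at kM ⊢; linarith
  have d2 : d' ≤ c' * N := by
    have := (i2 x₀ h0.1.1 h0.1.2).2 hd'.ge
    unfold In at this
    exact (Nat.le_add_left _ _).trans (this.trans (Nat.mul_le_mul_left _ h0.1.2))
  refine ⟨4 * k + 3, by nlinarith, 4 * M, by nlinarith, c', by nlinarith, d', by nlinarith, by omega,
    by omega, fun x x0 hx => ?_⟩
  have := E3 ((a * x₀ / b : ℕ) - (a * x / b : ℕ)) (x - x₀)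
    (by
      have := yN x hx
      have := yN x₀ h0.1.2
      generalize a * x / b = y at *
      generalize a * x₀ / b = z at *
      rw [abs_le]; omega) (by rw [abs_le]; omega)
  rw [i2 x x0 hx, ← hd']
  constructor
  · intro h
    have := this.1 (by have := hmin x x0 hx h; linarith)
    linarith
  · intro h
    have := this.2 (by linarith)
    have := (i1 x₀).1 h0.2
    rw [i1]
    linarith

/-- bound for the checked range -/
def nn (G : List ℕ) : ℕ := 2 * G.foldr (· + ·) 0 + 1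

lemma le_nn (G : List ℕ) : ∀ g ∈ G, g ≤ G.foldr (· + ·) 0 := by
  induction G with
  | nil => simp
  | cons a G ih =>
    intro g hg
    rcases List.mem_cons.1 hg with rfl | h
    · simp
    · have := ih g h
      simp only [List.foldr_cons]; omega

lemma bounded (G : List ℕ) : CPM G ↔
    ∃ a < 4 * (nn G + 3) ^ (nn G + 3), ∃ b < 4 * (nn G + 3) ^ (nn G + 3),
    ∃ c < 4 * (nn G + 3) ^ (nn G + 3), ∃ d < 4 * (nn G + 3) ^ (nn G + 3), ¬ b = 0 ∧ ¬ c = 0 ∧
      ∀ x < nn G + 1, ((¬ ∃ g ∈ G, g = x) ∧ (In a b c d x ∨ x = 0)) ∨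
        ((∃ g ∈ G, g = x) ∧ ¬ (In a b c d x ∨ x = 0)) := by
  rw [cpm_iff]
  have hG := le_nn G
  simp only [exists_eq_right]
  constructor
  · rintro ⟨a, b, c, d, hb, hc, h⟩
    have hN : In a b c d (nn G) := ((h _).1 (fun hh => by
      have := hG _ hh; unfold nn at this; omega)).resolve_right (by simp [nn])
    obtain ⟨a', ha, b', hb', c', hc', d', hd', b0, c0, H⟩ := small (nn G) a b c d hb hc (by simp [nn]) hN
    refine ⟨a', ha, b', hb', c', hc', d', hd', b0, c0, fun x hx => ?_⟩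
    have := h x
    rcases Nat.eq_zero_or_pos x with rfl | x0
    · tauto
    · have := H x x0 (by omega)
      tauto
  · rintro ⟨a, -, b, -, c, -, d, -, hb, hc, h⟩
    refine ⟨a, b, c, d, hb, hc, fun x => ?_⟩
    have big : ∀ x, G.foldr (· + ·) 0 < x → In a b c d x := by
      intro x
      induction x using Nat.strong_induction_on with
      | _ x ih =>
        intro hx
        by_cases h1 : x < nn G + 1
        · have h2 : x ∉ G := fun hh => by have := hG _ hh; omega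
          have h3 : x ≠ 0 := by omega
          have := h x h1
          tauto
        · unfold nn at h1
          obtain ⟨y, rfl⟩ : ∃ y, x = y + (G.foldr (· + ·) 0 + 1) := ⟨x - (G.foldr (· + ·) 0 + 1), by omega⟩
          exact In_add (ih _ (by omega) (by omega)) (ih _ (by omega) (by omega))
    by_cases h1 : x < nn G + 1
    · have := h x h1
      tauto
    · unfold nn at h1
      exact ⟨fun _ => Or.inl (big x (by omega)), fun _ hh => by have := hG _ hh; omega⟩

lemma exl {α : Type} [Primcodable α] {R : ℕ × α → Prop} {f : α → ℕ} (hR : PrimrecPred R)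
    (hf : Primrec f) : PrimrecPred fun a => ∃ x < f a, R (x, a) :=
  ((PrimrecRel.exists_mem_list (R := fun x a => R (x, a)) hR).comp (Primrec.list_range.comp hf)
    Primrec.id).of_eq (by simp)

lemma all {α : Type} [Primcodable α] {R : ℕ × α → Prop} {f : α → ℕ} (hR : PrimrecPred R)
    (hf : Primrec f) : PrimrecPred fun a => ∀ x < f a, R (x, a) :=
  ((PrimrecRel.forall_mem_list (R := fun x a => R (x, a)) hR).comp (Primrec.list_range.comp hf)
    Primrec.id).of_eq (by simp)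

/-- search bound -/
def BB (G : List ℕ) : ℕ := 4 * (nn G + 3) ^ (nn G + 3)
/-- membership test -/
def T0 (p : ℕ × ℕ × ℕ × ℕ × ℕ × List ℕ) : Prop := In p.2.2.2.2.1 p.2.2.2.1 p.2.2.1 p.2.1 p.1 ∨ p.1 = 0
/-- gap test -/
def T1 (p : ℕ × ℕ × ℕ × ℕ × ℕ × List ℕ) : Prop := ∃ g ∈ p.2.2.2.2.2, g = p.1
/-- agreement at one point -/
def T2 (p : ℕ × ℕ × ℕ × ℕ × ℕ × List ℕ) : Prop := (¬ T1 p ∧ T0 p) ∨ (T1 p ∧ ¬ T0 p)
/-- agreement on the range -/
def T3 (p : ℕ × ℕ × ℕ × ℕ × List ℕ) : Prop :=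
  ¬ p.2.2.1 = 0 ∧ ¬ p.2.1 = 0 ∧ ∀ x < nn p.2.2.2.2 + 1, T2 (x, p)
/-- search over `d` -/
def T4 (p : ℕ × ℕ × ℕ × List ℕ) : Prop := ∃ x < BB p.2.2.2, T3 (x, p)
/-- search over `c` -/
def T5 (p : ℕ × ℕ × List ℕ) : Prop := ∃ x < BB p.2.2, T4 (x, p)
/-- search over `b` -/
def T6 (p : ℕ × List ℕ) : Prop := ∃ x < BB p.2, T5 (x, p)

open Primrec

lemma hn : Primrec nn := succ.comp (nat_mul.comp (const 2)
  (list_foldr .id (const 0) (nat_add.comp (fst.comp snd) (snd.comp snd)).to₂))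

lemma hB : Primrec BB :=
  have pw : Primrec₂ (fun a b : ℕ => a ^ b) := Primrec₂.unpaired'.1 Nat.Primrec.pow
  have h3 : Primrec fun G => nn G + 3 := nat_add.comp hn (const 3)
  nat_mul.comp (const 4) (pw.comp h3 h3)

lemma h0 : PrimrecPred T0 :=
  (nat_le.comp (nat_add.comp (nat_mod.comp (nat_mul.comp (fst.comp (snd.comp (snd.comp (snd.comp snd))))
    fst) (fst.comp (snd.comp (snd.comp snd)))) (fst.comp snd))
    (nat_mul.comp (fst.comp (snd.comp snd)) fst)).or (Primrec.eq.comp fst (const 0))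

lemma h1 : PrimrecPred T1 :=
  (PrimrecRel.exists_mem_list Primrec.eq).comp (snd.comp (snd.comp (snd.comp (snd.comp snd)))) fst

lemma h2 : PrimrecPred T2 := (h1.not.and h0).or (h1.and h0.not)

lemma h3 : PrimrecPred T3 :=
  (Primrec.eq.comp (fst.comp (snd.comp snd)) (const 0)).not.and
    ((Primrec.eq.comp (fst.comp snd) (const 0)).not.and
      (all h2 (succ.comp (hn.comp (snd.comp (snd.comp (snd.comp snd)))))))

lemma h4 : PrimrecPred T4 := exl h3 (hB.comp (snd.comp (snd.comp snd)))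
lemma h5 : PrimrecPred T5 := exl h4 (hB.comp (snd.comp snd))
lemma h6 : PrimrecPred T6 := exl h5 (hB.comp snd)

theorem result : ComputablePred CPM :=
  ((exl h6 hB).of_eq fun G => (bounded G).symm).computablePred

end Pool.Agent.Results.MP_bd8ab5_nt.Decide
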